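import Pool.Agent.helper13.RF.SpecM
import Pool.Agent.helper47.RA.Num

set_option autoImplicit false

/-!
# RF, row HWB: the weight is bounded by a small power
-/

namespace Pool.Agent.RF

open NumberField

lemma HWB_two (n : ℕ) (hn : n ≠ 0) : (2 : ℝ) ^ n.primeFactors.card ≤ (n.divisors.card : ℝ) := by
  have h : 2 ^ n.primeFactors.card ≤ n.divisors.card := by
    rw [Nat.card_divisors hn, ← Finset.prod_const]
    refine Finset.prod_le_prod' (fun p hp => ?_)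
    have h1 := (Nat.prime_of_mem_primeFactors hp).factorization_pos_of_dvd hn (Nat.dvd_of_mem_primeFactors hp)
    omega
  exact_mod_cast h

theorem HWB : HWB_stmt := by
  intro e he
  obtain ⟨C₁, hC₁, h₁⟩ := Pool.Agent.helper47.RA.card_divisors_le (e / 92) (by positivity)
  obtain ⟨C₂, hC₂, h₂⟩ := Pool.Agent.helper47.RA.card_divisors_le (e / 54) (by positivity)
  refine ⟨181 * C₁ ^ 46 * C₂, fun g hg => ?_⟩
  have hg0 : g ≠ 0 := by omega
  have hgR : (0 : ℝ) < g := by exact_mod_cast hg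
  have ht := HWB_two g hg0
  have hτ := h₁ g hg
  have hτ2 := h₂ (g ^ 27) (by positivity)
  set t : ℝ := (g.divisors.card : ℝ) with ht'
  set w : ℕ := g.primeFactors.card with hw
  have ht0 : 0 ≤ t := by rw [ht']; positivity
  have e1 : (36 : ℝ) ^ w ≤ t ^ 6 := by
    calc (36 : ℝ) ^ w ≤ ((2 : ℝ) ^ 6) ^ w := pow_le_pow_left₀ (by norm_num) (by norm_num) w
      _ = ((2 : ℝ) ^ w) ^ 6 := by rw [← pow_mul, ← pow_mul, mul_comm]
      _ ≤ t ^ 6 := pow_le_pow_left₀ (by positivity) ht 6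
  have e2 : (285 : ℝ) ^ (4 * w) ≤ t ^ 36 := by
    calc (285 : ℝ) ^ (4 * w) ≤ ((2 : ℝ) ^ 9) ^ (4 * w) := pow_le_pow_left₀ (by norm_num) (by norm_num) (4 * w)
      _ = ((2 : ℝ) ^ w) ^ 36 := by rw [← pow_mul, ← pow_mul]; congr 1; ring
      _ ≤ t ^ 36 := pow_le_pow_left₀ (by positivity) ht 36
  have e3 : W2 g ≤ 181 * t ^ 46 := by
    unfold W2
    calc (181 : ℝ) * 36 ^ w * 285 ^ (4 * w) * t ^ 4 ≤ 181 * t ^ 6 * t ^ 36 * t ^ 4 := by gcongr
      _ = 181 * t ^ 46 := by ring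
  have e4 : t ^ 46 ≤ C₁ ^ 46 * (g : ℝ) ^ (e / 2) := by
    calc t ^ 46 ≤ (C₁ * (g : ℝ) ^ (e / 92)) ^ 46 := pow_le_pow_left₀ ht0 hτ 46
      _ = C₁ ^ 46 * (g : ℝ) ^ (e / 2) := by
        rw [mul_pow, ← Real.rpow_natCast ((g : ℝ) ^ (e / 92)), ← Real.rpow_mul hgR.le]
        congr 2
        push_cast
        ring
  have e5 : ((g ^ 27).divisors.card : ℝ) ≤ C₂ * (g : ℝ) ^ (e / 2) := by
    refine hτ2.trans (le_of_eq ?_)
    push_cast
    rw [← Real.rpow_natCast (g : ℝ) 27, ← Real.rpow_mul hgR.le]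
    congr 2
    push_cast
    ring
  have hgp : 0 < (g : ℝ) ^ (e / 2) := Real.rpow_pos_of_pos hgR _
  calc W2 g * ((g ^ 27).divisors.card : ℝ) ≤ (181 * (C₁ ^ 46 * (g : ℝ) ^ (e / 2))) * (C₂ * (g : ℝ) ^ (e / 2)) := by
        refine mul_le_mul (e3.trans ?_) e5 (by positivity) (by positivity)
        exact mul_le_mul_of_nonneg_left e4 (by norm_num)
    _ = 181 * C₁ ^ 46 * C₂ * ((g : ℝ) ^ (e / 2) * (g : ℝ) ^ (e / 2)) := by ring
    _ = 181 * C₁ ^ 46 * C₂ * (g : ℝ) ^ e := by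
        rw [← Real.rpow_add hgR]
        congr 2
        ring

end Pool.Agent.RF
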