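import Pool.Agent.helper33.RF.SpecL

set_option autoImplicit false

/-!
# RF, row YAG: the label at a prime of the content
-/

namespace Pool.Agent.RF

open NumberField

/-- the exponent bookkeeping in the last step -/
lemma YAG_last (hYVM : YVM_stmt) (hYPL : YPL_stmt) (l c J : ℕ) (n b u : OO) (hl : l.Prime) (hl2 : l ≠ 2) (hl5 : l ≠ 5)
    (hn : ∀ π : OO, Prime π → π ∣ (l : OO) → ¬ π ^ (2 * c + 1) ∣ n)
    (hd : (l : OO) ^ J ∣ u) (he : u = 10 * n * b) : (l : OO) ^ (J - 2 * c) ∣ b := by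
  obtain ⟨S, -, hS, -, hlast⟩ := hYPL l hl hl5
  refine hlast (J - 2 * c) b (fun π hπ => ?_)
  obtain ⟨hp, hpl, -, hm⟩ := hS π hπ
  obtain ⟨h1, h2, -⟩ := hYVM π hp
  have h10 : ¬ π ^ (0 + 1) ∣ (10 : OO) := by
    intro h
    have h3 : π ∣ ((10 : ℤ) : OO) := by
      rw [zero_add, pow_one] at h
      exact_mod_cast h
    have h4 : (l : ℤ) ∣ 10 := hm 10 h3
    have h5 : l ∣ 2 * 5 := by exact_mod_cast h4
    rcases (Nat.Prime.dvd_mul hl).1 h5 with h6 | h6
    · exact hl2 ((Nat.prime_dvd_prime_iff_eq hl Nat.prime_two).1 h6)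
    · exact hl5 ((Nat.prime_dvd_prime_iff_eq hl Nat.prime_five).1 h6)
  have h7 : ¬ π ^ (0 + 2 * c + 1) ∣ 10 * n := h2 10 n 0 (2 * c) h10 (hn π hp hpl)
  rw [zero_add] at h7
  refine h1 b (10 * n) J (2 * c) ?_ h7
  have h8 : b * (10 * n) = u := by rw [he]; ring
  rw [h8]
  exact (pow_dvd_pow_of_dvd hpl J).trans hd

theorem YAG (hYDL : YDL_stmt) (hYLG : YLG_stmt) (hYTR : YTR_stmt) (hYNV : YNV_stmt) (hYVM : YVM_stmt)
    (hYPL : YPL_stmt) (hGDV : GDV_stmt) : YAG_stmt := by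
  intro D₀ F _ _ C f g hsq hpos S hS o ho z hz l hl hlg
  obtain ⟨hoP, hoD, hog⟩ := hS o ho
  obtain ⟨hgf, -, -, hg0⟩ := hGDV o hoP D₀ f hsq hoD
  rw [hog] at hgf hg0
  have hlf : l ∣ f := hlg.trans hgf
  have hne : l ≠ 2 ∧ l ≠ 5 := by
    have hD20 := hoP.D20
    have hlD : (l : ℤ) ∣ o.D := by
      rw [hoD]
      exact Dvd.dvd.mul_left (dvd_pow (Int.natCast_dvd_natCast.2 hlf) (by norm_num)) _
    constructor
    · rintro rfl
      omega
    · rintro rfl
      omega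
  have hc1 : 1 ≤ g.factorization l := Nat.Prime.factorization_pos_of_dvd hl (by omega) hlg
  by_cases hj : f.factorization l ≤ 28 * g.factorization l
  · refine ⟨fun _ => 0, ?_⟩
    intro p _ q _ _ y _ _ a b _
    rw [Nat.sub_eq_zero_of_le hj, pow_zero]
    exact one_dvd _
  rw [not_le] at hj
  obtain ⟨lab, hlab⟩ := hYLG l D₀ (g.factorization l) (f.factorization l - 13 * g.factorization l) hl hne.1 hne.2
    hsq hc1
  choose a₀ b₀ hab using fun p : Pt => C.co (z p)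
  refine ⟨fun p => lab (a₀ p, b₀ p), ?_⟩
  intro p hp q hq hpq y hy hyy a b hyab
  have hlj : l ^ (f.factorization l) ∣ f := Nat.ordProj_dvd f l
  have h2c : 2 * (ct o).factorization l < f.factorization l := by rw [hog]; omega
  have key : ∀ r ∈ S, (l : OO) ^ (f.factorization l - 13 * g.factorization l) ∣
        b₀ r * HH (-(w2 * (D₀ : OO))) (a₀ r) (b₀ r) ∧
      ∀ π : OO, Prime π → π ∣ (l : OO) →
        ¬ π ^ (2 * g.factorization l + 1) ∣ (a₀ r) ^ 2 - (b₀ r) ^ 2 * (-(w2 * (D₀ : OO))) := by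
    intro r hr
    obtain ⟨hrP, hrD, hrg⟩ := hS r hr
    obtain ⟨hzr, hzz⟩ := hz r hr
    have h := hYDL D₀ F C o r f hsq hoP hrP hoD hrD (hog.trans hrg.symm) (z r) (by rw [hog]; exact hzr)
      (by rw [hog]; exact hzz) (a₀ r) (b₀ r) (hab r) l (f.factorization l) hl hne.1 hne.2 hlj h2c
    rw [hog] at h
    exact h
  have h1 := hlab (a₀ p, b₀ p) (a₀ q, b₀ q) (key p hp).1 (key p hp).2 (key q hq).1 (key q hq).2 hpq
  obtain ⟨hpP, hpD, hpg⟩ := hS p hp
  obtain ⟨hqP, hqD, hqg⟩ := hS q hq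
  have h2 := hYTR D₀ F C o p q f g hg0 hoP hpP hqP hoD hpD hqD (z p) (z q) y (hz p hp).1 (hz q hq).1 hy
    (a₀ p) (b₀ p) (a₀ q) (b₀ q) a b (hab p) (hab q) hyab
  have hlD : (l : ℤ) ^ (2 * f.factorization l) ∣ o.D := by
    rw [hoD]
    have h3 : (l : ℤ) ^ (2 * f.factorization l) ∣ (f : ℤ) ^ 2 := by
      rw [mul_comm, pow_mul]
      refine pow_dvd_pow_of_dvd ?_ 2
      exact_mod_cast hlj
    exact Dvd.dvd.mul_left h3 _
  have h4 := YAG_last hYVM hYPL l (g.factorization l)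
    (f.factorization l - 13 * g.factorization l - 13 * g.factorization l) o.n b
    ((g : OO) * (a₀ p * b₀ q - a₀ q * b₀ p)) hl hne.1 hne.2
    (fun π hπ hπl => by
      have h := (hYNV o hoP l (f.factorization l) hl hne.1 hne.2 h2c hlD π hπ hπl).1
      rw [hog] at h
      exact h)
    (Dvd.dvd.mul_left h1 _) h2
  have h5 : f.factorization l - 13 * g.factorization l - 13 * g.factorization l - 2 * g.factorization l =
      f.factorization l - 28 * g.factorization l := by omega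
  rw [h5] at h4
  exact h4

end Pool.Agent.RF
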